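import Mathlib

/-!
# MP_266b34_co: infinitely many elements of `S` in a finitely generated subgroup
-/

set_option autoImplicit false

namespace Pool.Agent.Helper23.VF

/-- An element of the subgroup generated by `S` is in the subgroup generated by a finite part. -/
theorem exists_fin {Γ : Type*} [Group Γ] {S : Set Γ} {x : Γ} (hx : x ∈ Subgroup.closure S) :
    ∃ F : Set Γ, F.Finite ∧ F ⊆ S ∧ x ∈ Subgroup.closure F := by
  induction hx using Subgroup.closure_induction with
  | mem x hx =>
    exact ⟨{x}, Set.finite_singleton x, by simpa using hx, Subgroup.subset_closure rfl⟩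
  | one => exact ⟨∅, Set.finite_empty, Set.empty_subset _, one_mem _⟩
  | mul x y _ _ hx hy =>
    obtain ⟨F, h1, h2, h3⟩ := hx
    obtain ⟨F', h4, h5, h6⟩ := hy
    exact ⟨F ∪ F', h1.union h4, Set.union_subset h2 h5,
      mul_mem (Subgroup.closure_mono Set.subset_union_left h3)
        (Subgroup.closure_mono Set.subset_union_right h6)⟩
  | inv x _ hx =>
    obtain ⟨F, h1, h2, h3⟩ := hx
    exact ⟨F, h1, h2, inv_mem h3⟩

theorem exists_fin_set {Γ : Type*} [Group Γ] {S : Set Γ} {X : Set Γ} (hX : X.Finite)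
    (hXS : X ⊆ Subgroup.closure S) :
    ∃ F : Set Γ, F.Finite ∧ F ⊆ S ∧ X ⊆ Subgroup.closure F := by
  induction X, hX using Set.Finite.induction_on with
  | empty => exact ⟨∅, Set.finite_empty, Set.empty_subset _, Set.empty_subset _⟩
  | @insert a X _ _ ih =>
    obtain ⟨F, h1, h2, h3⟩ := ih ((Set.subset_insert _ _).trans hXS)
    obtain ⟨F', h4, h5, h6⟩ := exists_fin (hXS (Set.mem_insert _ _))
    refine ⟨F ∪ F', h1.union h4, Set.union_subset h2 h5, ?_⟩
    rintro x (rfl | hx)
    · exact Subgroup.closure_mono Set.subset_union_right h6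
    · exact Subgroup.closure_mono Set.subset_union_left (h3 hx)

/-- If infinitely many elements of the symmetric generating set `S` are in a finitely generated
subgroup `Λ`, then `S` has an infinite symmetric part `T` which generates a finitely generated
subgroup (containing `Λ`). -/
theorem fg_part {Γ : Type*} [Group Γ] {S : Set Γ} (hgen : Subgroup.closure S = ⊤)
    (hsym : ∀ s ∈ S, s⁻¹ ∈ S) {Λ : Subgroup Γ} (hΛ : Λ.FG) (hinf : (S ∩ Λ).Infinite) :
    ∃ T ⊆ S, T.Infinite ∧ (∀ t ∈ T, t⁻¹ ∈ T) ∧ Λ ≤ Subgroup.closure T ∧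
      Group.FG (Subgroup.closure T) := by
  obtain ⟨X, hX⟩ := hΛ
  obtain ⟨F, h1, h2, h3⟩ := exists_fin_set (S := S) X.finite_toSet (by
    rw [hgen]
    exact fun _ _ => Subgroup.mem_top _)
  have h4 : Λ ≤ Subgroup.closure F := by
    rw [← hX, Subgroup.closure_le]
    exact h3
  have h5 : Subgroup.closure (S ∩ (Subgroup.closure F : Set Γ)) = Subgroup.closure F := by
    apply le_antisymm
    · rw [Subgroup.closure_le]
      exact Set.inter_subset_right
    · apply Subgroup.closure_mono
      exact fun x hx => ⟨h2 hx, Subgroup.subset_closure hx⟩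
  refine ⟨S ∩ (Subgroup.closure F : Set Γ), Set.inter_subset_left, ?_, ?_, ?_, ?_⟩
  · exact hinf.mono fun x hx => ⟨hx.1, h4 hx.2⟩
  · exact fun t ht => ⟨hsym t ht.1, inv_mem ht.2⟩
  · rw [h5]
    exact h4
  · rw [h5, Group.fg_iff_subgroup_fg]
    exact (Subgroup.fg_iff _).2 ⟨F, rfl, h1⟩

end Pool.Agent.Helper23.VF
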