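import Pool.Agent.Helper27.VF.Goals

/-!
# Project VF (MP_266b34_co), packet ORA: minimal cuts
-/

set_option autoImplicit false

namespace Pool.Agent.Helper23.VF

open Pool.Agent.Helper27.VF

universe u

theorem ora (hP : PthStmt.{u}) : OraStmt.{u} := by
  intro A W _ _ G G₀ w p hS k hk
  constructor
  · intro c hc h1
    obtain ⟨a, b, -, hb⟩ := hc.2.2
    obtain ⟨v, hv⟩ := inn_nonempty hS hb
    set T : Set (Set W × Set W) := {c' | c' ∈ SS A G p k ∧ Inn p (1 : A) c'.1 ∧ Lw c' c} with hT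
    have hfin : T.Finite := by
      refine (hP A W G G₀ w p hS k hk w v).subset ?_
      rintro c' ⟨hc', h1', hl⟩
      refine ⟨hc', ?_, ?_⟩
      · intro hw
        have h2 : Inn p (1 : A) c'.2 := fact1' hS hc'.1 (by rwa [one_smul])
        exact (inn_snd hS hc'.1).1 h2 h1'
      · intro hv'
        exact hc'.1.disj v hv' (hl.2 hv)
    have hne : T.Nonempty := ⟨c, hc, h1, subset_rfl, subset_rfl⟩
    obtain ⟨d, hd⟩ := hfin.exists_minimalFor
      (fun c : Set W × Set W => ((c.1, OrderDual.toDual c.2) : Set W × (Set W)ᵒᵈ)) T hne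
    have hdT : d ∈ T := hd.1
    refine ⟨d, ⟨hdT.1, hdT.2.1, ?_⟩, hdT.2.2⟩
    intro c'' hc'' h1'' hl
    have hT'' : c'' ∈ T := ⟨hc'', h1'', hl.1.trans hdT.2.2.1, hdT.2.2.2.trans hl.2⟩
    have h3 := hd.2 hT'' (show ((c''.1, OrderDual.toDual c''.2) : Set W × (Set W)ᵒᵈ) ≤
      (d.1, OrderDual.toDual d.2) from ⟨hl.1, hl.2⟩)
    have h4 : d.1 ⊆ c''.1 := h3.1
    have h5 : c''.2 ⊆ d.2 := h3.2
    exact Prod.ext (hl.1.antisymm h4) (h5.antisymm hl.2)
  · rintro d hd e he hne g ⟨h1, h2⟩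
    apply hne
    have h3 := (corner hk hd.1 he.1 (inn_inter.2 ⟨hd.2.1, he.2.1⟩) (inn_inter.2 ⟨h1, h2⟩)).1
    have h4 : Inn p (1 : A) (cor d e).1 := inn_inter.2 ⟨hd.2.1, he.2.1⟩
    have h5 : cor d e = d := hd.2.2 _ h3 h4 ⟨Set.inter_subset_left, Set.subset_union_left⟩
    have h6 : cor d e = e := he.2.2 _ h3 h4 ⟨Set.inter_subset_right, Set.subset_union_right⟩
    exact h5.symm.trans h6

end Pool.Agent.Helper23.VF
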